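import Pool.Agent.H798.BV.Stm6

/-! # BV/EPI (helper990 for helper798): the improved end point bound

The first two lemmas and the last steps are adapted from `Pool/Agent/H333/BV/Ep.lean`. -/

set_option autoImplicit false

namespace Pool.Agent.H990.BV

open Pool.Agent.H798.BV

theorem ep_var {n : ℕ} (S x : Fin n → ℝ) (c : ℝ) (h1 : ∑ j, S j = 1) (h2 : ∑ j, S j * x j = c) :
    ∑ j, S j * (x j - c) ^ 2 = ∑ j, S j * x j ^ 2 - c ^ 2 := by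
  have h : ∀ j, S j * (x j - c) ^ 2 = S j * x j ^ 2 - 2 * c * (S j * x j) + c ^ 2 * S j :=
    fun j => by ring
  rw [Finset.sum_congr rfl fun j _ => h j, Finset.sum_add_distrib, Finset.sum_sub_distrib,
    ← Finset.mul_sum, ← Finset.mul_sum, h1, h2]
  ring

theorem ep_cvar {n : ℕ} (S : Fin n → ℝ) (z : Fin n → ℂ) (w : ℂ) (h0 : ∀ j, 0 ≤ S j)
    (h1 : ∑ j, S j = 1) (h2 : w = ∑ j, (S j : ℂ) * z j) (hz : ∀ j, ‖z j‖ ≤ 1) :
    ∑ j, S j * ‖z j - w‖ ^ 2 ≤ 1 - ‖w‖ ^ 2 := by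
  have hr : ∑ j, S j * (z j).re = w.re := by
    rw [h2, Complex.re_sum]
    exact Finset.sum_congr rfl fun j _ => by rw [Complex.re_ofReal_mul]
  have hi : ∑ j, S j * (z j).im = w.im := by
    rw [h2, Complex.im_sum]
    exact Finset.sum_congr rfl fun j _ => by rw [Complex.im_ofReal_mul]
  have e1 := ep_var S (fun j => (z j).re) w.re h1 hr
  have e2 := ep_var S (fun j => (z j).im) w.im h1 hi
  have hn : ∀ v : ℂ, ‖v‖ ^ 2 = v.re ^ 2 + v.im ^ 2 := fun v => by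
    rw [← Complex.normSq_eq_norm_sq, Complex.normSq_apply]
    ring
  have e3 : ∑ j, S j * ‖z j - w‖ ^ 2 = ∑ j, S j * ‖z j‖ ^ 2 - ‖w‖ ^ 2 := by
    have f1 : ∑ j, S j * ‖z j - w‖ ^ 2 =
        ∑ j, (S j * ((z j).re - w.re) ^ 2 + S j * ((z j).im - w.im) ^ 2) := by
      refine Finset.sum_congr rfl fun j _ => ?_
      rw [hn, Complex.sub_re, Complex.sub_im]
      ring
    have f2 : ∑ j, S j * ‖z j‖ ^ 2 = ∑ j, S j * (z j).re ^ 2 + ∑ j, S j * (z j).im ^ 2 := by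
      rw [← Finset.sum_add_distrib]
      refine Finset.sum_congr rfl fun j _ => ?_
      rw [hn]
      ring
    rw [f1, f2, Finset.sum_add_distrib, e1, e2, hn w]
    ring
  have e4 : ∑ j, S j * ‖z j‖ ^ 2 ≤ ∑ j, S j := by
    refine Finset.sum_le_sum fun j _ => ?_
    exact mul_le_of_le_one_right (h0 j) (pow_le_one₀ (norm_nonneg _) (hz j))
  rw [h1] at e4
  linarith

theorem epi_log (y : ℂ) (hy : 1 - y ≠ 0) : Real.log ‖1 - y‖ ≤ -y.re + ‖y‖ ^ 2 / 2 := by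
  have hpos : 0 < ‖1 - y‖ := norm_pos_iff.2 hy
  have h1 : ‖1 - y‖ ^ 2 = 1 - 2 * y.re + ‖y‖ ^ 2 := by
    rw [← Complex.normSq_eq_norm_sq, ← Complex.normSq_eq_norm_sq, Complex.normSq_apply,
      Complex.normSq_apply, Complex.sub_re, Complex.sub_im, Complex.one_re, Complex.one_im]
    ring
  have h2 : Real.log (‖1 - y‖ ^ 2) ≤ ‖1 - y‖ ^ 2 - 1 :=
    Real.log_le_sub_one_of_pos (by positivity)
  rw [Real.log_pow] at h2
  push_cast at h2
  linarith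

/-- the mean of the logarithms, for a point away from the mean -/
theorem epi_small {n : ℕ} (S : Fin n → ℝ) (z : Fin n → ℂ) (w x : ℂ) (h0 : ∀ j, 0 ≤ S j)
    (h1 : ∑ j, S j = 1) (h2 : w = ∑ j, (S j : ℂ) * z j) (hz : ∀ j, ‖z j‖ ≤ 1)
    (hxz : ∀ j, x - z j ≠ 0) (hxw : x - w ≠ 0) :
    ∑ j, S j * Real.log ‖x - z j‖ ≤ Real.log ‖x - w‖ + 1 / (2 * ‖x - w‖ ^ 2) * (1 - ‖w‖ ^ 2) := by
  have hpw : 0 < ‖x - w‖ := norm_pos_iff.2 hxw
  have hj : ∀ j, S j * Real.log ‖x - z j‖ ≤ (Real.log ‖x - w‖ * S j -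
      ((S j : ℂ) * (z j - w) / (x - w)).re) + 1 / (2 * ‖x - w‖ ^ 2) * (S j * ‖z j - w‖ ^ 2) := by
    intro j
    obtain ⟨y, hy⟩ : ∃ y : ℂ, y = (z j - w) / (x - w) := ⟨_, rfl⟩
    have e1 : x - z j = (x - w) * (1 - y) := by
      rw [hy, mul_sub, mul_one, mul_div_cancel₀ _ hxw]
      ring
    have hy1 : 1 - y ≠ 0 := by
      intro h
      apply hxz j
      rw [e1, h, mul_zero]
    have hpy : 0 < ‖1 - y‖ := norm_pos_iff.2 hy1
    have e2 : Real.log ‖x - z j‖ = Real.log ‖x - w‖ + Real.log ‖1 - y‖ := by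
      rw [e1, norm_mul, Real.log_mul hpw.ne' hpy.ne']
    have e3 := epi_log y hy1
    have e4 : (S j : ℂ) * (z j - w) / (x - w) = (S j : ℂ) * y := by rw [hy, mul_div_assoc]
    have e5 : ((S j : ℂ) * y).re = S j * y.re := Complex.re_ofReal_mul _ _
    have e6 : ‖y‖ ^ 2 / 2 = 1 / (2 * ‖x - w‖ ^ 2) * ‖z j - w‖ ^ 2 := by
      rw [hy, norm_div]
      field_simp
    rw [e2, e4, e5]
    rw [e6] at e3
    have e7 := mul_le_mul_of_nonneg_left e3 (h0 j)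
    have e8 : S j * (Real.log ‖x - w‖ + Real.log ‖1 - y‖) =
        Real.log ‖x - w‖ * S j + S j * Real.log ‖1 - y‖ := by ring
    have e9 : S j * (-y.re + 1 / (2 * ‖x - w‖ ^ 2) * ‖z j - w‖ ^ 2) =
        -(S j * y.re) + 1 / (2 * ‖x - w‖ ^ 2) * (S j * ‖z j - w‖ ^ 2) := by ring
    rw [e8]
    rw [e9] at e7
    linarith
  have hs : ∑ j, ((S j : ℂ) * (z j - w) / (x - w)).re = 0 := by
    rw [← Complex.re_sum, ← Finset.sum_div]
    have : ∑ j, (S j : ℂ) * (z j - w) = 0 := by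
      have f1 : ∑ j, (S j : ℂ) * (z j - w) = ∑ j, (S j : ℂ) * z j - (∑ j, (S j : ℂ)) * w := by
        rw [Finset.sum_mul, ← Finset.sum_sub_distrib]
        exact Finset.sum_congr rfl fun j _ => by ring
      have f2 : (∑ j, (S j : ℂ)) = 1 := by
        rw [← Complex.ofReal_sum, h1, Complex.ofReal_one]
      rw [f1, f2, one_mul, ← h2, sub_self]
    rw [this, zero_div, Complex.zero_re]
  have hv := ep_cvar S z w h0 h1 h2 hz
  refine (Finset.sum_le_sum fun j _ => hj j).trans ?_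
  rw [Finset.sum_add_distrib, Finset.sum_sub_distrib, ← Finset.mul_sum, ← Finset.mul_sum, h1, hs,
    mul_one, sub_zero]
  have := mul_le_mul_of_nonneg_left hv (show 0 ≤ 1 / (2 * ‖x - w‖ ^ 2) by positivity)
  linarith

/-- the sum of the logarithms over the zeros -/
theorem epi_sum {m : ℕ} (z : Fin (m + 1) → ℂ) (S : Fin m → Fin (m + 1) → ℝ)
    (hS2 : ∀ j, ∑ k, S k j = (m : ℝ) / (m + 1)) (x : ℂ) (hxz : ∀ j, x - z j ≠ 0)
    (h3 : ∀ j, ‖x - z j‖ ≤ 3) :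
    ∑ j, Real.log ‖x - z j‖ ≤ ∑ k, ∑ j, S k j * Real.log ‖x - z j‖ + Real.log 3 := by
  have e1 : ∑ k, ∑ j, S k j * Real.log ‖x - z j‖ =
      (m : ℝ) / (m + 1) * ∑ j, Real.log ‖x - z j‖ := by
    rw [Finset.sum_comm, Finset.mul_sum]
    refine Finset.sum_congr rfl fun j _ => ?_
    rw [← Finset.sum_mul, hS2]
  have e2 : ∑ j, Real.log ‖x - z j‖ ≤ (m + 1) * Real.log 3 := by
    have : ∑ j, Real.log ‖x - z j‖ ≤ ∑ _j : Fin (m + 1), Real.log 3 :=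
      Finset.sum_le_sum fun j _ => Real.log_le_log (norm_pos_iff.2 (hxz j)) (h3 j)
    refine this.trans (le_of_eq ?_)
    rw [Finset.sum_const, Finset.card_univ, Fintype.card_fin, nsmul_eq_mul]
    push_cast
    ring
  rw [e1]
  have h4 : ∑ j, Real.log ‖x - z j‖ = (m : ℝ) / (m + 1) * ∑ j, Real.log ‖x - z j‖
      + 1 / ((m : ℝ) + 1) * ∑ j, Real.log ‖x - z j‖ := by
    field_simp
  have h5 : 1 / ((m : ℝ) + 1) * ∑ j, Real.log ‖x - z j‖ ≤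
      1 / ((m : ℝ) + 1) * ((m + 1) * Real.log 3) :=
    mul_le_mul_of_nonneg_left e2 (by positivity)
  have h6 : 1 / ((m : ℝ) + 1) * ((m + 1) * Real.log 3) = Real.log 3 := by
    field_simp
  linarith

theorem prod_max_eq {ι : Type*} (s : Finset ι) (f : ι → ℝ) (hf : ∀ i ∈ s, 0 < f i) :
    Real.exp (∑ i ∈ s, Real.log (f i)) = ∏ i ∈ s, f i := by
  rw [Real.exp_sum]
  exact Finset.prod_congr rfl fun i hi => Real.exp_log (hf i hi)

/-- EPI -/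
theorem t_EPI (h1 : S_PM) (h2 : S_F0U) : S_EPI := by
  intro m z w a r hm hcrit hz0 ha0 har hr1 hz hwa hw ω ρ hω hρ0 hρ
  obtain ⟨l, hl⟩ : ∃ l : Fin m → ℂ, l = fun k => ((a : ℂ) - w k)⁻¹ := ⟨_, rfl⟩
  have hlk : ∀ k, ((a : ℂ) - w k)⁻¹ = l k := fun k => by rw [hl]
  obtain ⟨S, hS0, hS1, hS2, hSw⟩ := h1 m z w hcrit
  have hF := h2 m z w a hcrit hz0 hwa ω ρ hω
  simp only [hlk] at hF ⊢
  have hr : 0 < 1 - r := by linarith
  have hm1 : (0 : ℝ) < (m : ℝ) + 1 := by positivity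
  have hne : ∀ k, (a : ℂ) - w k ≠ 0 := fun k => sub_ne_zero.2 (hwa k).symm
  have hal : ∀ k, ((a : ℂ) - w k) * l k = 1 := fun k => by
    rw [← hlk, mul_inv_cancel₀ (hne k)]
  have hN : ∀ k, ‖(a : ℂ) - w k‖ * ‖l k‖ = 1 := fun k => by
    rw [← norm_mul, hal, norm_one]
  have hNpos : ∀ k, 0 < ‖(a : ℂ) - w k‖ := fun k => norm_pos_iff.2 (hne k)
  have hlpos : ∀ k, 0 < ‖l k‖ := fun k => by
    rw [← hlk]
    exact norm_pos_iff.2 (inv_ne_zero (hne k))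
  have hna : ‖(a : ℂ)‖ = a := by rw [Complex.norm_real, Real.norm_of_nonneg ha0]
  have hone : ∀ k, ‖1 - (a : ℂ) * l k‖ = ‖w k‖ * ‖l k‖ := fun k => by
    have h3 : 1 - (a : ℂ) * l k = -(w k * l k) := by
      rw [← hal k]
      ring
    rw [h3, norm_neg, norm_mul]
  have hw0 : ∀ k, 0 ≤ 1 - ‖w k‖ := fun k => by linarith [hw k]
  have hhalf : ∀ k, 1 / 2 ≤ ‖l k‖ := fun k => by
    have h3 : ‖(a : ℂ) - w k‖ ≤ 2 := by
      refine (norm_sub_le _ _).trans ?_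
      rw [hna]
      linarith [hw k]
    have h4 := hN k
    nlinarith [hlpos k]
  obtain ⟨C, hC⟩ : ∃ C : ℝ, C = 18 / (1 - r) ^ 2 := ⟨_, rfl⟩
  have hC0 : 0 < C := by rw [hC]; positivity
  rw [← hC]
  have hQ0 : 0 ≤ ∏ k ∈ Finset.univ.filter (fun k => ¬ 2 / (1 - r) < ‖l k‖),
      ‖1 - (ρ : ℂ) * (ω * l k)‖ := Finset.prod_nonneg fun k _ => norm_nonneg _
  have hDsum : ∑ k, (‖l k‖ - ‖1 - (a : ℂ) * l k‖) = ∑ k, (1 - ‖w k‖) * ‖l k‖ := by
    refine Finset.sum_congr rfl fun k _ => ?_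
    rw [hone]
    ring
  rw [hDsum]
  obtain ⟨x, hx⟩ : ∃ x : ℂ, x = (a : ℂ) - (ρ : ℂ) * ω := ⟨_, rfl⟩
  rw [← hx] at hF
  have hP : ∏ k, ‖(a : ℂ) - w k‖ * ‖l k‖ = 1 := Finset.prod_eq_one fun k _ => hN k
  have hI : ((m : ℝ) + 1) * ‖∫ τ in (0 : ℝ)..ρ, ∏ k, (1 - (τ : ℂ) * (ω * l k))‖ =
      (∏ j, ‖x - z j‖) * ∏ k, ‖l k‖ := by
    rw [hF]
    rw [Finset.prod_mul_distrib] at hP
    calc _ = ((m : ℝ) + 1) * ‖∫ τ in (0 : ℝ)..ρ, ∏ k, (1 - (τ : ℂ) * (ω * l k))‖ *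
        ((∏ k, ‖(a : ℂ) - w k‖) * ∏ k, ‖l k‖) := by rw [hP, mul_one]
      _ = _ := by ring
  have hfin : (∏ j, ‖x - z j‖) * ∏ k, ‖l k‖ ≤ 3 * Real.exp (C * ∑ k, (1 - ‖w k‖) * ‖l k‖) *
      ∏ k ∈ Finset.univ.filter (fun k => ¬ 2 / (1 - r) < ‖l k‖),
        ‖1 - (ρ : ℂ) * (ω * l k)‖ → ‖∫ τ in (0 : ℝ)..ρ, ∏ k, (1 - (τ : ℂ) * (ω * l k))‖ ≤
      3 / ((m : ℝ) + 1) * Real.exp (C * ∑ k, (1 - ‖w k‖) * ‖l k‖) *
      ∏ k ∈ Finset.univ.filter (fun k => ¬ 2 / (1 - r) < ‖l k‖),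
        ‖1 - (ρ : ℂ) * (ω * l k)‖ := by
    intro hG
    rw [← hI] at hG
    calc ‖∫ τ in (0 : ℝ)..ρ, ∏ k, (1 - (τ : ℂ) * (ω * l k))‖
        = (((m : ℝ) + 1) * ‖∫ τ in (0 : ℝ)..ρ, ∏ k, (1 - (τ : ℂ) * (ω * l k))‖) / ((m : ℝ) + 1) :=
          (mul_div_cancel_left₀ _ hm1.ne').symm
      _ ≤ (3 * Real.exp (C * ∑ k, (1 - ‖w k‖) * ‖l k‖) *
          ∏ k ∈ Finset.univ.filter (fun k => ¬ 2 / (1 - r) < ‖l k‖),
            ‖1 - (ρ : ℂ) * (ω * l k)‖) / ((m : ℝ) + 1) :=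
          div_le_div_of_nonneg_right hG hm1.le
      _ = _ := by ring
  apply hfin
  -- the degenerate case
  by_cases hdeg : ∃ j, x - z j = 0
  · obtain ⟨j, hj⟩ := hdeg
    have h3 : ∏ j, ‖x - z j‖ = 0 :=
      Finset.prod_eq_zero (Finset.mem_univ j) (by rw [hj, norm_zero])
    rw [h3, zero_mul]
    positivity
  have hxz : ∀ j, x - z j ≠ 0 := fun j hj => hdeg ⟨j, hj⟩
  have hxn : ‖(ρ : ℂ) * ω‖ = ρ := by
    rw [norm_mul, hω, mul_one, Complex.norm_real, Real.norm_of_nonneg hρ0.le]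
  have h3 : ∀ j, ‖x - z j‖ ≤ 3 := fun j => by
    have h4 : ‖x - z j‖ ≤ ‖x‖ + ‖z j‖ := norm_sub_le _ _
    have h5 : ‖x‖ ≤ ‖(a : ℂ)‖ + ‖(ρ : ℂ) * ω‖ := by rw [hx]; exact norm_sub_le _ _
    rw [hna, hxn] at h5
    linarith [hz j]
  have hA := epi_sum z S hS2 x hxz h3
  have hxl : ∀ k, x - w k = ((a : ℂ) - w k) * (1 - (ρ : ℂ) * (ω * l k)) := fun k => by
    have h4 : ((a : ℂ) - w k) * (1 - (ρ : ℂ) * (ω * l k)) =
        ((a : ℂ) - w k) - (ρ : ℂ) * ω * (((a : ℂ) - w k) * l k) := by ring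
    rw [h4, hal, hx]
    ring
  -- small critical points
  have hxw : ∀ k, ¬ 2 / (1 - r) < ‖l k‖ → 3 * (1 - r) / 8 ≤ ‖x - w k‖ := fun k hk => by
    have h4 : ‖l k‖ ≤ 2 / (1 - r) := not_lt.1 hk
    rw [le_div_iff₀ hr] at h4
    have h5 : (1 - r) / 2 ≤ ‖(a : ℂ) - w k‖ := by
      have := hN k
      nlinarith [hNpos k]
    have h6 : ‖(a : ℂ) - w k‖ ≤ ‖x - w k‖ + ‖(ρ : ℂ) * ω‖ := by
      have h7 : (a : ℂ) - w k = (x - w k) + (ρ : ℂ) * ω := by rw [hx]; ring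
      rw [h7]
      exact norm_add_le _ _
    rw [hxn] at h6
    linarith
  have hcr : (1 - r) ≤ 1 := by linarith
  have hT : ∀ k, ∑ j, S k j * Real.log ‖x - z j‖ + Real.log ‖l k‖ ≤
      C * ((1 - ‖w k‖) * ‖l k‖) +
        (if ¬ 2 / (1 - r) < ‖l k‖ then Real.log ‖1 - (ρ : ℂ) * (ω * l k)‖ else 0) := by
    intro k
    have hDk : 0 ≤ (1 - ‖w k‖) * ‖l k‖ := mul_nonneg (hw0 k) (norm_nonneg _)
    by_cases hk : 2 / (1 - r) < ‖l k‖
    · rw [if_neg (not_not.2 hk), add_zero]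
      have h4 : ∑ j, S k j * Real.log ‖x - z j‖ ≤ Real.log 3 := by
        have : ∑ j, S k j * Real.log ‖x - z j‖ ≤ ∑ j, S k j * Real.log 3 :=
          Finset.sum_le_sum fun j _ => mul_le_mul_of_nonneg_left
            (Real.log_le_log (norm_pos_iff.2 (hxz j)) (h3 j)) (hS0 k j)
        rw [← Finset.sum_mul, hS1, one_mul] at this
        exact this
      have h5 : Real.log 3 ≤ 2 := by
        have := Real.log_le_sub_one_of_pos (show (0 : ℝ) < 3 by norm_num)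
        linarith
      have h6 : Real.log ‖l k‖ ≤ ‖l k‖ - 1 := Real.log_le_sub_one_of_pos (hlpos k)
      have hk2 : 2 < ‖l k‖ * (1 - r) := by rwa [div_lt_iff₀ hr] at hk
      have h7 : 1 ≤ ‖l k‖ := by nlinarith [hlpos k]
      have h8 : ‖(a : ℂ) - w k‖ ≤ (1 - r) / 2 := by
        have := hN k
        nlinarith [hNpos k]
      have h9 : ‖w k‖ ≤ ‖(a : ℂ)‖ + ‖(a : ℂ) - w k‖ := by
        have h7 : w k = (a : ℂ) - ((a : ℂ) - w k) := by ring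
        calc ‖w k‖ = ‖(a : ℂ) - ((a : ℂ) - w k)‖ := by rw [← h7]
          _ ≤ _ := norm_sub_le _ _
      rw [hna] at h9
      have h10 : (1 - r) / 2 ≤ 1 - ‖w k‖ := by linarith
      have h11 : 2 ≤ C * (1 - ‖w k‖) := by
        have h12 : C * ((1 - r) / 2) ≤ C * (1 - ‖w k‖) := mul_le_mul_of_nonneg_left h10 hC0.le
        have h13 : C * ((1 - r) / 2) = 9 / (1 - r) := by
          rw [hC]
          field_simp
          norm_num
        have h14 : 9 ≤ 9 / (1 - r) := by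
          rw [le_div_iff₀ hr]
          linarith
        linarith
      have h15 : 2 * ‖l k‖ ≤ C * (1 - ‖w k‖) * ‖l k‖ := mul_le_mul_of_nonneg_right h11 (norm_nonneg _)
      have h16 : C * (1 - ‖w k‖) * ‖l k‖ = C * ((1 - ‖w k‖) * ‖l k‖) := by ring
      linarith
    · rw [if_pos hk]
      have hb := hxw k hk
      have hbpos : 0 < ‖x - w k‖ := lt_of_lt_of_le (by positivity) hb
      have hxw0 : x - w k ≠ 0 := norm_pos_iff.1 hbpos
      have h4 := epi_small (S k) z (w k) x (hS0 k) (hS1 k) (hSw k) hz hxz hxw0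
      have h5 : Real.log ‖x - w k‖ + Real.log ‖l k‖ = Real.log ‖1 - (ρ : ℂ) * (ω * l k)‖ := by
        rw [← Real.log_mul hbpos.ne' (hlpos k).ne', hxl, norm_mul]
        congr 1
        calc ‖(a : ℂ) - w k‖ * ‖1 - (ρ : ℂ) * (ω * l k)‖ * ‖l k‖ =
            (‖(a : ℂ) - w k‖ * ‖l k‖) * ‖1 - (ρ : ℂ) * (ω * l k)‖ := by ring
          _ = _ := by rw [hN, one_mul]
      have h6 : 1 / (2 * ‖x - w k‖ ^ 2) * (1 - ‖w k‖ ^ 2) ≤ C * ((1 - ‖w k‖) * ‖l k‖) := by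
        have h7 : 1 - ‖w k‖ ^ 2 ≤ 4 * ((1 - ‖w k‖) * ‖l k‖) := by
          have h8 : 1 - ‖w k‖ ^ 2 ≤ 2 * (1 - ‖w k‖) := by nlinarith [sq_nonneg (1 - ‖w k‖)]
          have h9 := mul_le_mul_of_nonneg_left (hhalf k) (hw0 k)
          linarith
        have h10 : 1 / (2 * ‖x - w k‖ ^ 2) ≤ C / 4 := by
          have h11 : (3 * (1 - r) / 8) ^ 2 ≤ ‖x - w k‖ ^ 2 :=
            pow_le_pow_left₀ (by positivity) hb 2
          rw [hC, div_div, div_le_div_iff₀ (by positivity) (by positivity)]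
          nlinarith [sq_nonneg (1 - r)]
        have h12 : 0 ≤ 1 / (2 * ‖x - w k‖ ^ 2) := by positivity
        calc 1 / (2 * ‖x - w k‖ ^ 2) * (1 - ‖w k‖ ^ 2)
            ≤ 1 / (2 * ‖x - w k‖ ^ 2) * (4 * ((1 - ‖w k‖) * ‖l k‖)) :=
              mul_le_mul_of_nonneg_left h7 h12
          _ ≤ C / 4 * (4 * ((1 - ‖w k‖) * ‖l k‖)) :=
              mul_le_mul_of_nonneg_right h10 (by positivity)
          _ = _ := by ring
      linarith
  -- the sum of the logarithms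
  have hlog : ∑ j, Real.log ‖x - z j‖ + ∑ k, Real.log ‖l k‖ ≤
      Real.log 3 + C * ∑ k, (1 - ‖w k‖) * ‖l k‖ +
        ∑ k ∈ Finset.univ.filter (fun k => ¬ 2 / (1 - r) < ‖l k‖),
          Real.log ‖1 - (ρ : ℂ) * (ω * l k)‖ := by
    have h4 := Finset.sum_le_sum fun k (_ : k ∈ Finset.univ) => hT k
    rw [Finset.sum_add_distrib, Finset.sum_add_distrib, ← Finset.mul_sum,
      ← Finset.sum_filter] at h4
    linarith
  have hsp : ∀ k ∈ Finset.univ.filter (fun k => ¬ 2 / (1 - r) < ‖l k‖),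
      0 < ‖1 - (ρ : ℂ) * (ω * l k)‖ := by
    intro k hk
    have hb := hxw k (Finset.mem_filter.1 hk).2
    have hbpos : 0 < ‖x - w k‖ := lt_of_lt_of_le (by positivity) hb
    rw [hxl, norm_mul] at hbpos
    exact (mul_pos_iff_of_pos_left (hNpos k)).1 hbpos
  have hexp := Real.exp_le_exp.2 hlog
  rw [Real.exp_add, Real.exp_add, Real.exp_add, Real.exp_log (by norm_num : (0 : ℝ) < 3),
    prod_max_eq _ _ (fun j _ => norm_pos_iff.2 (hxz j)), prod_max_eq _ _ (fun k _ => hlpos k),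
    prod_max_eq _ _ hsp] at hexp
  exact hexp

end Pool.Agent.H990.BV
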